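import Pool.Agent.Q124.PT.GR

/-! Project PT (helper91), job CNT: few words have few blocks outside of a small set. -/

set_option autoImplicit false

namespace Pool.Agent.Q124.PT

open Finset Pool.Agent.H976R2 Pool.Agent.H976R2.Lip Pool.Agent.H739K Pool.Agent.H924P Filter
open scoped Classical
open Pool.Agent.Q91.PT

theorem split_mem {s M : ℕ} {w : List Dir} (hw : w ∈ SW (s + M)) :
    w.take s ∈ SW s ∧ w.drop s ∈ SW M := by
  obtain ⟨h1, h2⟩ := mem_SW.1 hw
  rw [← List.take_append_drop s w] at h2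
  refine ⟨mem_SW.2 ⟨?_, h2.left⟩, mem_SW.2 ⟨?_, h2.right⟩⟩
  · rw [List.length_take, h1]
    omega
  · rw [List.length_drop, h1]
    omega

theorem sum_split {s M : ℕ} (g h : List Dir → ℝ) (hg : ∀ u, 0 ≤ g u) (hh : ∀ u, 0 ≤ h u) :
    ∑ w ∈ SW (s + M), g (w.take s) * h (w.drop s) ≤ (∑ u ∈ SW s, g u) * ∑ v ∈ SW M, h v := by
  rw [sum_mul_sum, ← sum_product']
  have hinj : Set.InjOn (fun w : List Dir => (w.take s, w.drop s)) (SW (s + M) : Set (List Dir)) := by
    intro w _ w' _ he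
    rw [Prod.mk.injEq] at he
    rw [← List.take_append_drop s w, ← List.take_append_drop s w', he.1, he.2]
  have h1 : ∑ w ∈ SW (s + M), g (w.take s) * h (w.drop s) =
      ∑ p ∈ (SW (s + M)).image (fun w : List Dir => (w.take s, w.drop s)), g p.1 * h p.2 :=
    (sum_image (f := fun p : List Dir × List Dir => g p.1 * h p.2) hinj).symm
  rw [h1]
  refine sum_le_sum_of_subset_of_nonneg ?_ fun p _ _ => mul_nonneg (hg _) (hh _)
  intro p hp
  obtain ⟨w, hw, rfl⟩ := mem_image.1 hp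
  exact mem_product.2 (split_mem hw)

/-- the weighted count -/
theorem wgt {s ρ : ℕ} (f : List Dir → ℝ) (hf : ∀ u, 0 ≤ f u) (σ : ℝ) (hσ : ∑ u ∈ SW s, f u ≤ σ)
    (hσ0 : 0 ≤ σ) (q : ℕ) :
    ∑ w ∈ SW (q * s + ρ), ∏ i ∈ range q, f ((w.drop (i * s)).take s) ≤ σ ^ q * 4 ^ ρ := by
  induction q with
  | zero =>
    simp only [range_zero, prod_empty, sum_const, nsmul_eq_mul, mul_one, pow_zero, one_mul,
      zero_mul, zero_add]
    exact card_SW_leR ρ
  | succ q ih =>
    have e1 : (q + 1) * s + ρ = s + (q * s + ρ) := by ring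
    rw [e1]
    have e2 : ∀ w : List Dir, ∏ i ∈ range (q + 1), f ((w.drop (i * s)).take s) =
        f (w.take s) * ∏ i ∈ range q, f (((w.drop s).drop (i * s)).take s) := by
      intro w
      rw [prod_range_succ', mul_comm, zero_mul, List.drop_zero]
      congr 1
      refine prod_congr rfl fun i _ => ?_
      rw [List.drop_drop]
      congr 3
      ring
    rw [sum_congr rfl fun w _ => e2 w]
    refine (sum_split (fun u => f u) (fun v => ∏ i ∈ range q, f ((v.drop (i * s)).take s)) hf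
      fun u => prod_nonneg fun i _ => hf _).trans ?_
    rw [pow_succ, mul_comm (σ ^ q) σ, mul_assoc]
    exact mul_le_mul hσ ih (sum_nonneg fun w _ => prod_nonneg fun i _ => hf _) hσ0

/-- **CNT** -/
theorem t_CNT : S_cnt := by
  intro s Bd κ β hs hBd hκ hβ hβ4 hcard q ρ
  obtain ⟨t, ht⟩ : ∃ t : ℝ, t = 4 ^ s / β := ⟨_, rfl⟩
  have ht1 : 1 ≤ t := by rw [ht, le_div_iff₀ hβ, one_mul]; exact hβ4
  have ht0 : 0 < t := by linarith
  let f : List Dir → ℝ := fun u => if u ∈ Bd then 1 else 1 / t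
  have hf0 : ∀ u, 0 ≤ f u := by
    intro u
    change 0 ≤ if u ∈ Bd then (1 : ℝ) else 1 / t
    split_ifs <;> positivity
  have hsum : ∑ u ∈ SW s, f u ≤ 2 * β := by
    have h1 : ∑ u ∈ SW s, f u ≤ ∑ u ∈ SW s, ((if u ∈ Bd then (1 : ℝ) else 0) + 1 / t) := by
      refine sum_le_sum fun u _ => ?_
      change (if u ∈ Bd then (1 : ℝ) else 1 / t) ≤ _
      have h2 : 0 ≤ 1 / t := by positivity
      split_ifs <;> linarith
    refine h1.trans ?_
    rw [sum_add_distrib, sum_ite_mem, inter_eq_right.2 hBd, sum_const, sum_const, nsmul_eq_mul,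
      nsmul_eq_mul, mul_one]
    have h3 : ((SW s).card : ℝ) * (1 / t) ≤ β := by
      rw [ht, one_div_div, ← mul_div_assoc, div_le_iff₀ (by positivity)]
      rw [mul_comm β]
      exact mul_le_mul_of_nonneg_right (card_SW_leR s) hβ.le
    linarith
  have hw := wgt (ρ := ρ) f hf0 (2 * β) hsum (by positivity) q
  have hpt : ∀ w ∈ (SW (q * s + ρ)).filter (fun w =>
      ((((range q).filter (fun i => (w.drop (i * s)).take s ∉ Bd)).card : ℕ) : ℝ) ≤ κ * q),
      (1 : ℝ) ≤ (t ^ κ) ^ q * ∏ i ∈ range q, f ((w.drop (i * s)).take s) := by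
    intro w hw
    obtain ⟨-, h1⟩ := mem_filter.1 hw
    have h2 : ∏ i ∈ range q, f ((w.drop (i * s)).take s) =
        (1 / t) ^ ((range q).filter (fun i => (w.drop (i * s)).take s ∉ Bd)).card := by
      rw [← prod_const, prod_filter]
      refine prod_congr rfl fun i _ => ?_
      change (if (w.drop (i * s)).take s ∈ Bd then (1 : ℝ) else 1 / t) = _
      by_cases h3 : (w.drop (i * s)).take s ∈ Bd
      · rw [if_pos h3, if_neg (not_not.2 h3)]
      · rw [if_neg h3, if_pos h3]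
    rw [h2, one_div, inv_pow, ← div_eq_mul_inv, le_div_iff₀ (by positivity), one_mul,
      ← Real.rpow_natCast t, ← Real.rpow_natCast (t ^ κ), ← Real.rpow_mul ht0.le]
    exact Real.rpow_le_rpow_of_exponent_le ht1 h1
  have hfin : ((((SW (q * s + ρ)).filter (fun w =>
      ((((range q).filter (fun i => (w.drop (i * s)).take s ∉ Bd)).card : ℕ) : ℝ) ≤ κ * q)).card : ℕ)
      : ℝ) ≤ (t ^ κ) ^ q * ((2 * β) ^ q * 4 ^ ρ) := by
    calc _ = ∑ w ∈ (SW (q * s + ρ)).filter (fun w =>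
      ((((range q).filter (fun i => (w.drop (i * s)).take s ∉ Bd)).card : ℕ) : ℝ) ≤ κ * q), (1 : ℝ) := by
          rw [sum_const, nsmul_eq_mul, mul_one]
      _ ≤ ∑ w ∈ (SW (q * s + ρ)).filter (fun w =>
      ((((range q).filter (fun i => (w.drop (i * s)).take s ∉ Bd)).card : ℕ) : ℝ) ≤ κ * q),
          ((t ^ κ) ^ q * ∏ i ∈ range q, f ((w.drop (i * s)).take s)) := sum_le_sum hpt
      _ ≤ ∑ w ∈ SW (q * s + ρ), ((t ^ κ) ^ q * ∏ i ∈ range q, f ((w.drop (i * s)).take s)) :=
          sum_le_sum_of_subset_of_nonneg (filter_subset _ _) fun w _ _ =>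
            mul_nonneg (by positivity) (prod_nonneg fun i _ => hf0 _)
      _ = (t ^ κ) ^ q * ∑ w ∈ SW (q * s + ρ), ∏ i ∈ range q, f ((w.drop (i * s)).take s) := by
          rw [mul_sum]
      _ ≤ _ := mul_le_mul_of_nonneg_left hw (by positivity)
  rw [← ht, mul_pow, mul_assoc]
  exact hfin

end Pool.Agent.Q124.PT
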