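import Pool.Agent.Q91.PT.Stm
import Pool.Agent.H739K.BND

/-! Project PT (helper91), job GR: growth of the number of self-avoiding words. -/

set_option autoImplicit false

namespace Pool.Agent.Q124.PT

open Finset Pool.Agent.H976R2 Pool.Agent.H976R2.Lip Pool.Agent.H739K Pool.Agent.H924P Filter
open scoped Classical
open Pool.Agent.Q91.PT

theorem card_wordsN_le (n : ℕ) : (wordsN n).card ≤ 4 ^ n := by
  induction n with
  | zero =>
    have h1 : wordsN 0 ⊆ {[]} := by
      intro w hw
      rw [mem_wordsN] at hw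
      rw [mem_singleton]
      exact List.length_eq_zero_iff.1 hw
    exact (card_le_card h1).trans (by simp)
  | succ n ih =>
    have h1 : wordsN (n + 1) ⊆ ((univ : Finset Dir) ×ˢ wordsN n).image (fun p => p.1 :: p.2) := by
      intro w hw
      rw [mem_wordsN] at hw
      rcases w with _ | ⟨d, v⟩
      · simp at hw
      · rw [mem_image]
        refine ⟨(d, v), ?_, rfl⟩
        rw [mem_product, mem_wordsN]
        exact ⟨mem_univ _, by simpa using hw⟩
    have h2 : (univ : Finset Dir).card = 4 := rfl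
    calc (wordsN (n + 1)).card ≤ _ := card_le_card h1
      _ ≤ ((univ : Finset Dir) ×ˢ wordsN n).card := card_image_le
      _ = 4 * (wordsN n).card := by rw [card_product, h2]
      _ ≤ 4 * 4 ^ n := Nat.mul_le_mul_left 4 ih
      _ = 4 ^ (n + 1) := by ring

theorem card_SW_le (n : ℕ) : (SW n).card ≤ 4 ^ n :=
  (card_filter_le _ _).trans (card_wordsN_le n)

theorem card_SW_leR (n : ℕ) : ((SW n).card : ℝ) ≤ 4 ^ n := by exact_mod_cast card_SW_le n

/-- **GR** -/
theorem t_GR : S_gr := by
  refine ⟨BNDx.mu_ge, ?_, card_SW_leR, ?_⟩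
  · refine le_of_tendsto H981.tendsto_root ?_
    filter_upwards [eventually_gt_atTop 0] with n hn
    have hn0 : (n : ℝ) ≠ 0 := by positivity
    rw [BNDx.card_SW]
    calc ((SW n).card : ℝ) ^ (1 / (n : ℝ)) ≤ ((4 : ℝ) ^ n) ^ (1 / (n : ℝ)) :=
          Real.rpow_le_rpow (by positivity) (card_SW_leR n) (by positivity)
      _ = 4 := by
          rw [← Real.rpow_natCast, ← Real.rpow_mul (by norm_num), mul_one_div_cancel hn0,
            Real.rpow_one]
  · intro δ hδ
    have hmu := BNDx.mu_ge
    have hr : H981.mu < H981.mu * (1 + δ) := by nlinarith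
    obtain ⟨N, hN⟩ := eventually_atTop.1 (H981.eventually_le hr)
    have hr1 : 1 ≤ H981.mu * (1 + δ) := by nlinarith
    refine ⟨4 ^ N, by positivity, fun n => ?_⟩
    by_cases hn : N ≤ n
    · have h1 := hN n hn
      rw [BNDx.card_SW] at h1
      refine h1.trans (le_mul_of_one_le_left (by positivity) (one_le_pow₀ (by norm_num)))
    · calc ((SW n).card : ℝ) ≤ 4 ^ n := card_SW_leR n
        _ ≤ 4 ^ N := pow_le_pow_right₀ (by norm_num) (by omega)
        _ ≤ 4 ^ N * (H981.mu * (1 + δ)) ^ n :=
          le_mul_of_one_le_right (by positivity) (one_le_pow₀ hr1)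

end Pool.Agent.Q124.PT
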