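import Pool.Agent.Q124.PT.GR

/-! Project PT (helper91), job ONE: the start and the end of the induction. -/

set_option autoImplicit false

namespace Pool.Agent.Q124.PT

open Finset Pool.Agent.H976R2 Pool.Agent.H976R2.Lip Pool.Agent.H739K Pool.Agent.H924P Filter
open scoped Classical
open Pool.Agent.Q91.PT

theorem mem_vs {r : ℕ} {w : List Dir} {j i : ℕ} :
    i ∈ vs r w j ↔ i ≤ w.length ∧ inB r (PP w j) (PP w i) := by
  unfold vs
  rw [mem_filter, mem_range, Nat.lt_succ_iff]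

theorem inB_self (r : ℕ) (p : ℤ × ℤ) : inB r p p := by
  unfold inB
  simp

theorem EK_one (r : ℕ) (w : List Dir) : EK r 1 w = range w.length := by
  unfold EK
  rw [filter_eq_self]
  intro j hj
  rw [Nat.one_le_iff_ne_zero, Ne, card_eq_zero]
  intro h
  have h1 : j ∈ vs r w j := mem_vs.2 ⟨(mem_range.1 hj).le, inB_self r _⟩
  rw [h] at h1
  simp at h1

theorem card_vs_le (r : ℕ) {w : List Dir} (hw : Saw w) (j : ℕ) :
    (vs r w j).card ≤ (2 * r + 1) ^ 2 := by
  have h1 : (vs r w j).card ≤ (Icc ((PP w j).1 - r) ((PP w j).1 + r) ×ˢ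
      Icc ((PP w j).2 - r) ((PP w j).2 + r)).card := by
    apply card_le_card_of_injOn (fun i => PP w i)
    · intro i hi
      have hi' : i ∈ vs r w j := hi
      obtain ⟨-, h2, h3⟩ := mem_vs.1 hi'
      rw [abs_le] at h2 h3
      rw [mem_coe, mem_product, mem_Icc, mem_Icc]
      refine ⟨⟨?_, ?_⟩, ?_, ?_⟩ <;> linarith [h2.1, h2.2, h3.1, h3.2]
    · intro i hi i' hi' h
      have hi1 : i ∈ vs r w j := hi
      have hi2 : i' ∈ vs r w j := hi'
      exact PP_inj hw (mem_vs.1 hi1).1 (mem_vs.1 hi2).1 h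
  rw [card_product, Int.card_Icc, Int.card_Icc] at h1
  have h2 : ((PP w j).1 + r + 1 - ((PP w j).1 - r)).toNat = 2 * r + 1 := by omega
  have h3 : ((PP w j).2 + r + 1 - ((PP w j).2 - r)).toNat = 2 * r + 1 := by omega
  rw [h2, h3] at h1
  rw [pow_two]
  exact h1

/-- **ONE** -/
theorem t_ONE : S_one := by
  constructor
  · intro r Q
    refine ⟨1 / 2, 1, by norm_num, by norm_num, 1, 1 / 2, by norm_num, by norm_num, by norm_num, ?_⟩
    intro n
    have hmu := BNDx.mu_ge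
    rcases Nat.eq_zero_or_pos n with rfl | hn
    · have h1 : ((SW 0).filter (fun w => (occ Q w : ℝ) ≤ 1 * ((0 : ℕ) : ℝ) ∧
          ((EK r 1 w).card : ℝ) ≤ 1 / 2 * ((0 : ℕ) : ℝ))).card ≤ 1 := by
        refine (card_filter_le _ _).trans ((card_SW_le 0).trans ?_)
        norm_num
      rw [pow_zero, mul_one]
      change (((SW 0).filter (fun w => (occ Q w : ℝ) ≤ 1 * ((0 : ℕ) : ℝ) ∧
          ((EK r 1 w).card : ℝ) ≤ 1 / 2 * ((0 : ℕ) : ℝ))).card : ℝ) ≤ 1
      exact le_of_le_of_eq (Nat.cast_le.2 h1) Nat.cast_one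
    · have h1 : (SW n).filter (fun w => (occ Q w : ℝ) ≤ 1 * (n : ℝ) ∧
          ((EK r 1 w).card : ℝ) ≤ 1 / 2 * (n : ℝ)) = ∅ := by
        rw [filter_eq_empty_iff]
        rintro w hw ⟨-, h2⟩
        rw [EK_one, card_range, (mem_SW.1 hw).1] at h2
        have h3 : (0 : ℝ) < n := by exact_mod_cast hn
        linarith
      change (((SW n).filter (fun w => (occ Q w : ℝ) ≤ 1 * (n : ℝ) ∧
          ((EK r 1 w).card : ℝ) ≤ 1 / 2 * (n : ℝ))).card : ℝ) ≤ _
      rw [h1, card_empty, Nat.cast_zero]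
      positivity
  · rintro r Q ⟨a, ε, ha, hε, C, θ, hC, hθ, hθ1, h⟩
    refine ⟨ε, hε, C, θ, hC, hθ, hθ1, fun n => ?_⟩
    refine le_trans ?_ (h n)
    have h1 : (SW n).filter (fun w => (occ Q w : ℝ) ≤ ε * n) ⊆
        (SW n).filter (fun w => (occ Q w : ℝ) ≤ ε * n ∧
          ((EK r ((2 * r + 1) ^ 2 + 1) w).card : ℝ) ≤ a * n) := by
      intro w hw
      rw [mem_filter] at hw ⊢
      refine ⟨hw.1, hw.2, ?_⟩
      have h2 : EK r ((2 * r + 1) ^ 2 + 1) w = ∅ := by
        unfold EK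
        rw [filter_eq_empty_iff]
        intro j _ h3
        have h4 := card_vs_le r (mem_SW.1 hw.1).2 j
        omega
      rw [h2, card_empty, Nat.cast_zero]
      positivity
    exact_mod_cast card_le_card h1

end Pool.Agent.Q124.PT
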