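import Pool.Agent.Q124.PT.ONE

/-! Project PT (helper91), job PCS: additivity over blocks. -/

set_option autoImplicit false

namespace Pool.Agent.Q124.PT

open Finset Pool.Agent.H976R2 Pool.Agent.H976R2.Lip Pool.Agent.H739K Pool.Agent.H924P Filter
open scoped Classical
open Pool.Agent.Q91.PT

theorem PP_add (w : List Dir) (m a : ℕ) : PP w (m + a) = PP w m + PP (w.drop m) a := by
  unfold PP
  rw [List.take_add, wX_append, wY_append]
  rfl

theorem PP_take (u : List Dir) {s a : ℕ} (h : a ≤ s) : PP (u.take s) a = PP u a := by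
  unfold PP
  rw [List.take_take, min_eq_left h]

theorem PP_blk (w : List Dir) {i s a : ℕ} (h : a ≤ s) :
    PP w (i * s + a) = PP w (i * s) + PP ((w.drop (i * s)).take s) a := by
  rw [PP_add, PP_take _ h]

theorem inB_add (r : ℕ) (c p q : ℤ × ℤ) : inB r (c + p) (c + q) ↔ inB r p q := by
  unfold inB
  simp

theorem len_blk {w : List Dir} {q s i : ℕ} (h : q * s ≤ w.length) (hi : i < q) :
    ((w.drop (i * s)).take s).length = s := by
  rw [List.length_take, List.length_drop]
  have h1 : (i + 1) * s ≤ q * s := Nat.mul_le_mul_right s hi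
  rw [Nat.succ_mul] at h1
  omega

/-- disjoint blocks -/
theorem sum_blk {s q : ℕ} (A : ℕ → Finset ℕ) (B : Finset ℕ) (h1 : ∀ i < q, ∀ a ∈ A i, a < s)
    (h2 : ∀ i < q, ∀ a ∈ A i, i * s + a ∈ B) : ∑ i ∈ range q, (A i).card ≤ B.card := by
  have h3 : ∀ i ∈ range q, ((A i).image (fun a => i * s + a)).card = (A i).card := by
    intro i _
    exact card_image_of_injective _ fun a b hab => Nat.add_left_cancel hab
  rw [← sum_congr rfl h3, ← card_biUnion]
  · apply card_le_card
    intro x hx
    obtain ⟨i, hi, hx⟩ := mem_biUnion.1 hx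
    obtain ⟨a, ha, rfl⟩ := mem_image.1 hx
    exact h2 i (mem_range.1 hi) a ha
  · intro i hi i' hi' hne
    rw [Function.onFun, Finset.disjoint_left]
    intro x hx hx'
    obtain ⟨a, ha, rfl⟩ := mem_image.1 hx
    obtain ⟨a', ha', he⟩ := mem_image.1 hx'
    have hi1 : i < q := mem_range.1 hi
    have hi2 : i' < q := mem_range.1 hi'
    have b1 := h1 i hi1 a ha
    have b2 := h1 i' hi2 a' ha'
    apply hne
    have hs : 0 < s := by omega
    have e1 : (i * s + a) / s = i := by
      rw [mul_comm, Nat.mul_add_div hs, Nat.div_eq_of_lt b1, add_zero]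
    have e2 : (i' * s + a') / s = i' := by
      rw [mul_comm, Nat.mul_add_div hs, Nat.div_eq_of_lt b2, add_zero]
    rw [← e1, ← e2, ← he]

/-- **PCS** -/
theorem t_PCS : S_pcs := by
  intro r k s q Q w hs hQ hq
  have hQl : 1 ≤ Q.length := by
    rw [Nat.one_le_iff_ne_zero, Ne, List.length_eq_zero_iff]
    exact hQ
  have hlen : ∀ i < q, ((w.drop (i * s)).take s).length = s := fun i hi => len_blk hq hi
  have hle : ∀ i < q, i * s + s ≤ w.length := by
    intro i hi
    have h1 : (i + 1) * s ≤ q * s := Nat.mul_le_mul_right s hi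
    rw [Nat.succ_mul] at h1
    omega
  constructor
  · have key : ∀ i < q, ∀ a ∈ occS Q ((w.drop (i * s)).take s), a + Q.length ≤ s ∧
        (w.drop (i * s + a)).take Q.length = Q := by
      intro i hi a ha
      unfold occS at ha
      rw [mem_filter, mem_range, hlen i hi] at ha
      obtain ⟨h1, h2⟩ := ha
      have h3 := congrArg List.length h2
      rw [List.length_take, List.length_drop, hlen i hi] at h3
      have h4 : a + Q.length ≤ s := by omega
      refine ⟨h4, ?_⟩
      rw [List.drop_take, List.drop_drop, List.take_take, min_eq_left (by omega)] at h2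
      exact h2
    unfold occ
    refine sum_blk (s := s) _ _ (fun i hi a ha => ?_) fun i hi a ha => ?_
    · have := (key i hi a ha).1
      omega
    · obtain ⟨h1, h2⟩ := key i hi a ha
      unfold occS
      rw [mem_filter, mem_range]
      refine ⟨?_, h2⟩
      have := hle i hi
      omega
  · refine sum_blk (s := s) _ _ (fun i hi a ha => ?_) fun i hi a ha => ?_
    · unfold EK at ha
      rw [mem_filter, mem_range, hlen i hi] at ha
      exact ha.1
    · unfold EK at ha
      rw [mem_filter, mem_range, hlen i hi] at ha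
      obtain ⟨h1, h2⟩ := ha
      unfold EL
      rw [mem_filter, mem_range]
      have h3 := hle i hi
      refine ⟨by omega, h2.trans ?_⟩
      apply card_le_card_of_injOn (fun c => i * s + c)
      · intro c hc
        have hc' : c ∈ vs r ((w.drop (i * s)).take s) a := hc
        obtain ⟨h4, h5⟩ := mem_vs.1 hc'
        rw [hlen i hi] at h4
        rw [mem_coe, mem_filter, mem_vs]
        refine ⟨⟨?_, ?_⟩, ?_, ?_⟩
        · show i * s + c ≤ w.length
          omega
        · show inB r (PP w (i * s + a)) (PP w (i * s + c))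
          rw [PP_blk w h1.le, PP_blk w h4, inB_add]
          exact h5
        · show i * s + c ≤ i * s + a + s
          omega
        · show i * s + a ≤ i * s + c + s
          omega
      · intro c _ c' _ h
        exact Nat.add_left_cancel h

end Pool.Agent.Q124.PT
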